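import Pool.Agent.N670.GS.Gap
import Pool.Agent.X112.GS.NT2

/-!
# The normalised gaps of the zeros of zeta are not periodic plus a coboundary, quantitatively
-/

set_option autoImplicit false

open Filter Finset

namespace Pool.Agent.N670.GS

open Pool.Agent.X112.GS
open SG (ord NZ)

lemma tele_sub (u : ℕ → ℝ) (n Q : ℕ) :
    ∑ i ∈ range Q, (u (n + i + 1) - u (n + i)) = u (n + Q) - u n := by
  induction Q with
  | zero => simp
  | succ Q ih =>
    rw [Finset.sum_range_succ, ih, show n + (Q + 1) = n + Q + 1 by ring]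
    ring

/-- The normalised gaps are not the sum of an approximately `Q`-periodic sequence and of the
differences of a sequence which is at most `K` for a positive proportion of the indices, up to
`exp (-C K²)`. -/
theorem cobq (Q : ℕ) (hQ : 1 ≤ Q) (η : ℝ) (hη : 0 < η) :
    ∃ C : ℝ, 0 < C ∧ ∀ K : ℝ, 1 ≤ K → ∀ᶠ N : ℕ in atTop, ∀ x p : ℕ → ℝ,
    (((Icc 1 N).filter (fun n => Real.exp (-C * K ^ 2) ≤ |p (n + Q) - p n|)).card : ℝ) ≤
      Real.exp (-C * K ^ 2) * N →
    (((Icc 1 N).filter (fun n => Real.exp (-C * K ^ 2) ≤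
      |dq n - p n - (x (n + 1) - x n)|)).card : ℝ) ≤ Real.exp (-C * K ^ 2) * N →
    (((Icc 1 N).filter (fun n => |x n| ≤ K)).card : ℝ) ≤ η * N := by
  classical
  obtain ⟨C, hC, h⟩ := quant anti2_yy lln2_yy Q hQ η hη
  have hQ0 : (1 : ℝ) ≤ Q := by exact_mod_cast hQ
  refine ⟨C + 8 * Q, by positivity, fun K hK => ?_⟩
  obtain ⟨ε0, hε0⟩ : ∃ ε0 : ℝ, ε0 = Real.exp (-C * K ^ 2) := ⟨_, rfl⟩
  obtain ⟨ε1, hε1⟩ : ∃ ε1 : ℝ, ε1 = Real.exp (-(C + 8 * Q) * K ^ 2) := ⟨_, rfl⟩
  have hp0 : 0 < ε0 := by rw [hε0]; exact Real.exp_pos _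
  have hp1 : 0 < ε1 := by rw [hε1]; exact Real.exp_pos _
  have hle : 8 * Q * ε1 ≤ ε0 := by
    have e1 : ε1 = ε0 * Real.exp (-(8 * Q * K ^ 2)) := by
      rw [hε1, hε0, ← Real.exp_add]
      congr 1
      ring
    have e2 : Real.exp (-(8 * Q * K ^ 2)) * (8 * Q) ≤ 1 := by
      have h1 : 8 * (Q : ℝ) ≤ Real.exp (8 * Q * K ^ 2) := by
        have h2 := Real.add_one_le_exp (8 * (Q : ℝ) * K ^ 2)
        have h3 : (1 : ℝ) ≤ K ^ 2 := one_le_pow₀ hK
        nlinarith
      rw [Real.exp_neg, inv_mul_le_iff₀ (Real.exp_pos _), mul_one]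
      exact h1
    rw [e1]
    nlinarith
  have hbig : ∀ᶠ N : ℕ in atTop, (4 * Q ^ 2 : ℝ) ≤ ε0 / 4 * N :=
    (tendsto_natCast_atTop_atTop.const_mul_atTop
      (show (0 : ℝ) < ε0 / 4 by positivity)).eventually_ge_atTop _
  filter_upwards [h K hK, close_yy ε1 ε1 hp1 hp1, hbig] with N hN hcl hb
  intro x p hp hx
  rw [← hε0] at hN
  rw [← hε1] at hx hp
  obtain ⟨P, hP⟩ : ∃ P : ℕ → Prop, P = fun m => ε1 ≤ |dq m - p m - (x (m + 1) - x m)| ∨
      ε1 < |dq m - inc yy m| ∨ ε1 ≤ |p (m + Q) - p m| := ⟨_, rfl⟩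
  have hPc : (((Icc 1 N).filter P).card : ℝ) ≤ 3 * ε1 * N := by
    have h1 : (Icc 1 N).filter P ⊆
        ((Icc 1 N).filter (fun n => ε1 ≤ |dq n - p n - (x (n + 1) - x n)|) ∪
        (Icc 1 N).filter (fun n => ε1 < |dq n - inc yy n|)) ∪
        (Icc 1 N).filter (fun n => ε1 ≤ |p (n + Q) - p n|) := by
      intro n hn
      rw [Finset.mem_filter, hP] at hn
      rw [Finset.mem_union, Finset.mem_union, Finset.mem_filter, Finset.mem_filter,
        Finset.mem_filter]
      rcases hn.2 with h2 | h2 | h2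
      · exact Or.inl (Or.inl ⟨hn.1, h2⟩)
      · exact Or.inl (Or.inr ⟨hn.1, h2⟩)
      · exact Or.inr ⟨hn.1, h2⟩
    have h2 := (Finset.card_le_card h1).trans ((Finset.card_union_le _ _).trans
      (Nat.add_le_add_right (Finset.card_union_le _ _) _))
    have h3 : (((Icc 1 N).filter P).card : ℝ) ≤
        ((Icc 1 N).filter (fun n => ε1 ≤ |dq n - p n - (x (n + 1) - x n)|)).card +
        ((Icc 1 N).filter (fun n => ε1 < |dq n - inc yy n|)).card +
        ((Icc 1 N).filter (fun n => ε1 ≤ |p (n + Q) - p n|)).card := by exact_mod_cast h2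
    linarith
  have hz := hN (fun n => yy n - x n) (by
    have hsub : (Icc 1 N).filter (fun n => ε0 < |(yy (n + 2 * Q) - x (n + 2 * Q)) -
        2 * (yy (n + Q) - x (n + Q)) + (yy n - x n)|) ⊆
        (range (2 * Q)).biUnion (fun i => (Icc 1 N).filter (fun n => P (n + i))) := by
      intro n hn
      rw [Finset.mem_filter] at hn
      by_contra hcon
      rw [Finset.mem_biUnion] at hcon
      push Not at hcon
      have key2 : ∀ i < 2 * Q, |p (n + i + Q) - p (n + i)| ≤ ε1 := by
        intro i hi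
        have h1 := hcon i (Finset.mem_range.mpr hi)
        rw [Finset.mem_filter, not_and] at h1
        have h2 := h1 hn.1
        rw [hP] at h2
        simp only [not_or, not_le, not_lt] at h2
        exact h2.2.2.le
      have key : ∀ i < 2 * Q,
          |inc yy (n + i) - p (n + i) - (x (n + i + 1) - x (n + i))| ≤ 2 * ε1 := by
        intro i hi
        have h1 := hcon i (Finset.mem_range.mpr hi)
        rw [Finset.mem_filter, not_and] at h1
        have h2 := h1 hn.1
        rw [hP] at h2
        simp only [not_or, not_le, not_lt] at h2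
        have a1 := abs_lt.mp h2.1
        have a2 := abs_le.mp h2.2.1
        rw [abs_le]
        constructor <;> linarith [a1.1, a1.2, a2.1, a2.2]
      have e : (yy (n + 2 * Q) - x (n + 2 * Q)) - 2 * (yy (n + Q) - x (n + Q)) + (yy n - x n) =
          ∑ i ∈ range Q, ((inc yy (n + (Q + i)) - p (n + (Q + i)) -
              (x (n + (Q + i) + 1) - x (n + (Q + i)))) -
            (inc yy (n + i) - p (n + i) - (x (n + i + 1) - x (n + i))) +
            (p (n + i + Q) - p (n + i))) := by
        have t1 := tele_sub (fun m => yy m - x m) n Q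
        have t2 := tele_sub (fun m => yy m - x m) (n + Q) Q
        have t3 : ∀ i ∈ range Q, ((inc yy (n + (Q + i)) - p (n + (Q + i)) -
              (x (n + (Q + i) + 1) - x (n + (Q + i)))) -
            (inc yy (n + i) - p (n + i) - (x (n + i + 1) - x (n + i))) +
            (p (n + i + Q) - p (n + i))) =
            ((yy (n + Q + i + 1) - x (n + Q + i + 1)) - (yy (n + Q + i) - x (n + Q + i))) -
            ((yy (n + i + 1) - x (n + i + 1)) - (yy (n + i) - x (n + i))) := by
          intro i _
          rw [show n + (Q + i) = n + Q + i by ring, show n + i + Q = n + Q + i by ring]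
          unfold inc
          ring
        rw [Finset.sum_congr rfl t3, Finset.sum_sub_distrib]
        rw [t1, t2, show n + 2 * Q = n + Q + Q by ring]
        ring
      have hb1 : |(yy (n + 2 * Q) - x (n + 2 * Q)) - 2 * (yy (n + Q) - x (n + Q)) +
          (yy n - x n)| ≤ ε0 := by
        rw [e]
        refine (Finset.abs_sum_le_sum_abs _ _).trans ?_
        have : ∀ i ∈ range Q, |((inc yy (n + (Q + i)) - p (n + (Q + i)) -
              (x (n + (Q + i) + 1) - x (n + (Q + i)))) -
            (inc yy (n + i) - p (n + i) - (x (n + i + 1) - x (n + i))) +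
            (p (n + i + Q) - p (n + i)))| ≤ 5 * ε1 := by
          intro i hi
          rw [Finset.mem_range] at hi
          have k1 := abs_le.mp (key (Q + i) (by omega))
          have k2 := abs_le.mp (key i (by omega))
          have k3 := abs_le.mp (key2 i (by omega))
          rw [abs_le]
          constructor <;> linarith [k1.1, k1.2, k2.1, k2.2, k3.1, k3.2]
        refine (Finset.sum_le_sum this).trans ?_
        rw [Finset.sum_const, Finset.card_range, nsmul_eq_mul]
        nlinarith
      linarith [hn.2]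
    have h1 := (Finset.card_le_card hsub).trans Finset.card_biUnion_le
    have h2 : ∑ i ∈ range (2 * Q), ((Icc 1 N).filter (fun n => P (n + i))).card ≤
        ∑ i ∈ range (2 * Q), (((Icc 1 N).filter P).card + 2 * Q) := by
      refine Finset.sum_le_sum fun i hi => ?_
      rw [Finset.mem_range] at hi
      have := card_shift P N i
      omega
    rw [Finset.sum_const, Finset.card_range, smul_eq_mul] at h2
    have h3 : (((Icc 1 N).filter (fun n => ε0 < |(yy (n + 2 * Q) - x (n + 2 * Q)) -
        2 * (yy (n + Q) - x (n + Q)) + (yy n - x n)|)).card : ℝ) ≤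
        2 * Q * (((Icc 1 N).filter P).card + 2 * Q) := by
      exact_mod_cast h1.trans h2
    have hN0 : (0 : ℝ) ≤ N := Nat.cast_nonneg _
    refine h3.trans ?_
    have h4 : 2 * (Q : ℝ) * (((Icc 1 N).filter P).card + 2 * Q) ≤
        2 * Q * (3 * ε1 * N + 2 * Q) := by
      apply mul_le_mul_of_nonneg_left _ (by positivity)
      linarith
    refine h4.trans ?_
    have h5 : 8 * Q * ε1 * N ≤ ε0 * N := mul_le_mul_of_nonneg_right hle hN0
    nlinarith)
  refine le_trans ?_ hz
  have : (Icc 1 N).filter (fun n => |x n| ≤ K) ⊆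
      (Icc 1 N).filter (fun n => |yy n - (yy n - x n)| ≤ K) := by
    intro n hn
    rw [Finset.mem_filter] at hn ⊢
    rw [show yy n - (yy n - x n) = x n by ring]
    exact hn
  exact_mod_cast Finset.card_le_card this

end Pool.Agent.N670.GS
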