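import Pool.Agent.X112.GS.RecFin

/-!
# The normalised gaps of the zeros of zeta: transfer of the theorems of `Pool.Agent.X112.GS`
-/

set_option autoImplicit false

open Filter Finset

namespace Pool.Agent.N670.GS

open Pool.Agent.X112.GS
open SG (ord NZ)

/-- a sequence close to one without approximate periods has no approximate period -/
theorem noPer_close {x x' : ℕ → ℝ} (h : NoPer x) (hc : Close x x') : NoPer x' := by
  classical
  intro Q hQ
  obtain ⟨ε, hε, h1⟩ := h Q hQ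
  refine ⟨ε / 3, by positivity, ?_⟩
  have hbig : ∀ᶠ N : ℕ in atTop, (Q : ℝ) ≤ ε / 6 * N :=
    (tendsto_natCast_atTop_atTop.const_mul_atTop (show (0 : ℝ) < ε / 6 by positivity)).eventually_ge_atTop _
  filter_upwards [h1, hc (ε / 3) (ε / 6) (by positivity) (by positivity), hbig] with N h1 h2 h3
  have hsub : (Icc 1 N).filter (fun n => ε ≤ |x (n + Q) - x n|) ⊆
      ((Icc 1 N).filter (fun n => ε / 3 ≤ |x' (n + Q) - x' n|) ∪
        (Icc 1 N).filter (fun n => ε / 3 < |x' n - x n|)) ∪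
        (Icc 1 N).filter (fun n => ε / 3 < |x' (n + Q) - x (n + Q)|) := by
    intro n hn
    simp only [Finset.mem_filter, Finset.mem_union] at hn ⊢
    obtain ⟨hI, hn⟩ := hn
    by_contra hcon
    push Not at hcon
    obtain ⟨⟨a1, a2⟩, a3⟩ := hcon
    have b1 := abs_lt.mp (a1 hI)
    have b2 := abs_le.mp (a2 hI)
    have b3 := abs_le.mp (a3 hI)
    have : |x (n + Q) - x n| < ε := by
      rw [abs_lt]
      constructor <;> linarith [b1.1, b1.2, b2.1, b2.2, b3.1, b3.2]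
    linarith
  have h4 := (Finset.card_le_card hsub).trans ((Finset.card_union_le _ _).trans
    (Nat.add_le_add_right (Finset.card_union_le _ _) _))
  have h5 := card_shift (fun n => ε / 3 < |x' n - x n|) N Q
  have h6 : (((Icc 1 N).filter (fun n => ε ≤ |x (n + Q) - x n|)).card : ℝ) ≤
      ((Icc 1 N).filter (fun n => ε / 3 ≤ |x' (n + Q) - x' n|)).card +
      ((Icc 1 N).filter (fun n => ε / 3 < |x' n - x n|)).card +
      (((Icc 1 N).filter (fun n => ε / 3 < |x' n - x n|)).card + Q) := by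
    have := h4.trans (Nat.add_le_add_left h5 _)
    exact_mod_cast this
  have hN0 : (0 : ℝ) ≤ N := Nat.cast_nonneg _
  nlinarith

theorem noPer_dq : NoPer dq := noPer_close (noPer_of anti_yy lln_yy) close_yy

lemma dq_bounds : ∀ᶠ n : ℕ in atTop, 0 ≤ dq n ∧ dq n ≤ inc yy n := by
  have hpi := Real.pi_pos
  have hpi3 := Real.pi_gt_three
  have hord : Tendsto ord atTop atTop := Pool.Agent.Y743.LR.ord_tendsto
  filter_upwards [hord.eventually_ge_atTop (2 * Real.pi), eventually_ge_atTop 1] with n h1 hn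
  have hmono : ord n ≤ ord (n + 1) := SG.ord_mono hn (by omega)
  have ha0 : 0 < ord n := by linarith
  have hl : 0 ≤ Real.log (ord n / (2 * Real.pi)) :=
    Real.log_nonneg (by rw [le_div_iff₀ (by positivity)]; linarith)
  have hl2 : Real.log (ord n / (2 * Real.pi)) ≤ Real.log (ord n) :=
    Real.log_le_log (by positivity) (div_le_self ha0.le (by linarith))
  have hl3 : Real.log (ord n) ≤ Real.log (ord (n + 1)) := Real.log_le_log ha0 hmono
  constructor
  · unfold dq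
    apply mul_nonneg _ hl
    apply div_nonneg (by linarith) (by positivity)
  · unfold dq inc yy
    rw [div_mul_eq_mul_div, ← sub_div]
    apply div_le_div_of_nonneg_right _ (by positivity)
    nlinarith

lemma sum_abs_dq : ∃ C : ℝ, 0 < C ∧ ∀ N : ℕ, ∑ n ∈ Icc 1 N, |dq n| ≤ C * (N + 1) := by
  obtain ⟨n1, hn1⟩ := dq_bounds.exists_forall_of_atTop
  obtain ⟨C, hC0, hC⟩ := sum_abs
  obtain ⟨C1, hC1⟩ : ∃ C1 : ℝ, C1 = ∑ n ∈ Icc 1 n1, |dq n| := ⟨_, rfl⟩
  have hC10 : 0 ≤ C1 := by rw [hC1]; exact Finset.sum_nonneg fun _ _ => abs_nonneg _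
  refine ⟨C + C1, by linarith, fun N => ?_⟩
  have h : ∀ n ∈ Icc 1 N, |dq n| ≤ |inc yy n| + (if n ≤ n1 then |dq n| else 0) := by
    intro n _
    by_cases hn : n ≤ n1
    · rw [if_pos hn]
      linarith [abs_nonneg (inc yy n)]
    · rw [if_neg hn, add_zero]
      obtain ⟨b1, b2⟩ := hn1 n (by omega)
      rw [abs_of_nonneg b1]
      exact b2.trans (le_abs_self _)
  have h1 := Finset.sum_le_sum h
  rw [Finset.sum_add_distrib, ← Finset.sum_filter] at h1
  have h2 : ∑ n ∈ (Icc 1 N).filter (fun n => n ≤ n1), |dq n| ≤ C1 := by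
    rw [hC1]
    refine Finset.sum_le_sum_of_subset_of_nonneg ?_ fun _ _ _ => abs_nonneg _
    intro n hn
    rw [Finset.mem_filter, Finset.mem_Icc] at hn
    rw [Finset.mem_Icc]
    exact ⟨hn.1.1, hn.2⟩
  have h3 := hC N
  have hN0 : (0 : ℝ) ≤ N := Nat.cast_nonneg _
  nlinarith

/-- no monotone prediction -/
theorem mono (k : ℕ) (hk : 1 ≤ k) : ∃ ε : ℝ, 0 < ε ∧ ∀ᶠ N : ℕ in atTop, ∀ f : ℝ → ℝ,
    Monotone f → ε * N ≤ (((Icc 1 N).filter (fun n => ε ≤ |dq (n + k) - f (dq n)|)).card : ℝ) := by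
  obtain ⟨n1, hn1⟩ := dq_bounds.exists_forall_of_atTop
  obtain ⟨C, hC0, hC⟩ := sum_abs_dq
  exact no_mono noPer_dq (fun n hn => (hn1 n hn).1) hC0 hC k hk

theorem anti (k : ℕ) (hk : 1 ≤ k) (Λ : ℝ) (hΛ : 0 ≤ Λ) : ∃ ε : ℝ, 0 < ε ∧ ∀ᶠ N : ℕ in atTop,
    ∀ f : ℝ → ℝ, Antitone f → (∀ s t : ℝ, |f s - f t| ≤ Λ * |s - t|) →
    ε * N ≤ (((Icc 1 N).filter (fun n => ε ≤ |dq (n + k) - f (dq n)|)).card : ℝ) := by
  obtain ⟨n1, hn1⟩ := dq_bounds.exists_forall_of_atTop
  obtain ⟨C, hC0, hC⟩ := sum_abs_dq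
  exact no_anti noPer_dq (fun n hn => (hn1 n hn).1) hC0 hC k hk Λ hΛ

theorem pats (L : ℕ) (hL : 1 ≤ L) :
    ∃ ε : ℝ, 0 < ε ∧ ∀ᶠ N : ℕ in atTop, ∀ v : ℕ → ℕ → ℝ,
      ε * N ≤ (((Icc 1 N).filter (fun n => ∀ j < L, ∃ i < L, ε ≤ |dq (n + i) - v j i|)).card : ℝ) :=
  patterns noPer_dq L hL

end Pool.Agent.N670.GS
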