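import Pool.Agent.N670.GS.Gap
import Pool.Agent.X112.GS.NT2

/-!
# The normalised gaps are one plus a coboundary, up to `exp (-c K²)`
-/

set_option autoImplicit false

open Filter Finset

namespace Pool.Agent.N670.GS

open Pool.Agent.X112.GS
open SG (ord NZ)

/-- the sum of `s` consecutive gaps -/
noncomputable def DS (s m : ℕ) : ℝ := ∑ j ∈ range s, dq (m + j)

lemma DS_succ (s m : ℕ) : DS (s + 1) m = DS s m + dq (m + s) := by
  unfold DS
  rw [Finset.sum_range_succ]

/-- the sums of the two kinds of gaps are close -/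
lemma DS_close (s : ℕ) (θ : ℝ) (hθ : 0 < θ) : ∀ᶠ N : ℕ in atTop,
    (((Icc 1 N).filter (fun m => 1 < |DS s m - (yy (m + s) - yy m)|)).card : ℝ) ≤ θ * N := by
  classical
  have hs0 : (0 : ℝ) ≤ s := Nat.cast_nonneg _
  have hbig : ∀ᶠ N : ℕ in atTop, ((s : ℝ) ^ 2) ≤ θ / 2 * N :=
    (tendsto_natCast_atTop_atTop.const_mul_atTop
      (show (0 : ℝ) < θ / 2 by positivity)).eventually_ge_atTop _
  filter_upwards [close_yy (1 / (s + 1)) (θ / (2 * (s + 1))) (by positivity) (by positivity), hbig]
    with N h1 h2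
  have hsub : (Icc 1 N).filter (fun m => 1 < |DS s m - (yy (m + s) - yy m)|) ⊆
      (range s).biUnion (fun j => (Icc 1 N).filter
        (fun m => 1 / ((s : ℝ) + 1) < |dq (m + j) - inc yy (m + j)|)) := by
    intro m hm
    rw [Finset.mem_filter] at hm
    by_contra hcon
    rw [Finset.mem_biUnion] at hcon
    push Not at hcon
    have key : ∀ j ∈ range s, |dq (m + j) - inc yy (m + j)| ≤ 1 / ((s : ℝ) + 1) := by
      intro j hj
      have := hcon j hj
      rw [Finset.mem_filter, not_and] at this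
      exact not_lt.mp (this hm.1)
    have e : DS s m - (yy (m + s) - yy m) = ∑ j ∈ range s, (dq (m + j) - inc yy (m + j)) := by
      rw [Finset.sum_sub_distrib, sum_inc]
      rfl
    have h3 : |DS s m - (yy (m + s) - yy m)| ≤ 1 := by
      rw [e]
      refine (Finset.abs_sum_le_sum_abs _ _).trans ((Finset.sum_le_sum key).trans ?_)
      rw [Finset.sum_const, Finset.card_range, nsmul_eq_mul, mul_one_div, div_le_one (by positivity)]
      linarith
    linarith [hm.2]
  have h3 := (Finset.card_le_card hsub).trans Finset.card_biUnion_le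
  have h4 : ∑ j ∈ range s, ((Icc 1 N).filter
        (fun m => 1 / ((s : ℝ) + 1) < |dq (m + j) - inc yy (m + j)|)).card ≤
      ∑ j ∈ range s, (((Icc 1 N).filter
        (fun m => 1 / ((s : ℝ) + 1) < |dq m - inc yy m|)).card + s) := by
    refine Finset.sum_le_sum fun j hj => ?_
    rw [Finset.mem_range] at hj
    have := card_shift (fun m => 1 / ((s : ℝ) + 1) < |dq m - inc yy m|) N j
    omega
  rw [Finset.sum_const, Finset.card_range, smul_eq_mul] at h4
  have h5 : (((Icc 1 N).filter (fun m => 1 < |DS s m - (yy (m + s) - yy m)|)).card : ℝ) ≤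
      s * (((Icc 1 N).filter (fun m => 1 / ((s : ℝ) + 1) < |dq m - inc yy m|)).card + s) := by
    exact_mod_cast h3.trans h4
  refine h5.trans ?_
  have h6 : (s : ℝ) * (θ / (2 * (s + 1)) * N) ≤ θ / 2 * N := by
    have hN0 : (0 : ℝ) ≤ N := Nat.cast_nonneg _
    have : (s : ℝ) * (θ / (2 * (s + 1))) ≤ θ / 2 := by
      rw [← mul_div_assoc, div_le_div_iff₀ (by positivity) (by positivity)]
      nlinarith
    calc (s : ℝ) * (θ / (2 * (s + 1)) * N) = (s * (θ / (2 * (s + 1)))) * N := by ring
      _ ≤ θ / 2 * N := mul_le_mul_of_nonneg_right this hN0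
  have h7 : (s : ℝ) * ((Icc 1 N).filter (fun m => 1 / ((s : ℝ) + 1) < |dq m - inc yy m|)).card ≤
      s * (θ / (2 * (s + 1)) * N) := mul_le_mul_of_nonneg_left h1 hs0
  nlinarith

/-- concentration of the sums of at most `exp (K² / 4A²)` gaps -/
lemma conc (θ : ℝ) (hθ : 0 < θ) : ∃ A : ℝ, 0 < A ∧ ∃ K0 : ℝ, 1 ≤ K0 ∧ ∀ K : ℝ, K0 ≤ K → ∀ s : ℕ,
    (s : ℝ) ≤ Real.exp (K ^ 2 / (4 * A ^ 2)) → ∀ᶠ N : ℕ in atTop,
    (((Icc 1 N).filter (fun m => K < |DS s m - s|)).card : ℝ) ≤ θ * N := by
  classical
  obtain ⟨A, hA, s0, h⟩ := lln2_yy (θ / 3) (by positivity)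
  obtain ⟨n1, hn1⟩ := dq_bounds.exists_forall_of_atTop
  -- the case of large `s`
  have big : ∀ s : ℕ, s0 ≤ s → ∀ L : ℝ, 2 ≤ L → A * Real.sqrt (Real.log s) ≤ L / 2 →
      ∀ᶠ N : ℕ in atTop,
      (((Icc 1 N).filter (fun m => L < |DS s m - s|)).card : ℝ) ≤ 2 * θ / 3 * N := by
    intro s hs L hL hAL
    filter_upwards [h s hs, DS_close s (θ / 3) (by positivity)] with N g1 g2
    have hsub : (Icc 1 N).filter (fun m => L < |DS s m - s|) ⊆
        (Icc 1 N).filter (fun n => A * Real.sqrt (Real.log s) ≤ |yy (n + s) - yy n - s|) ∪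
        (Icc 1 N).filter (fun m => 1 < |DS s m - (yy (m + s) - yy m)|) := by
      intro m hm
      rw [Finset.mem_filter] at hm
      rw [Finset.mem_union, Finset.mem_filter, Finset.mem_filter]
      by_contra hcon
      rw [not_or, not_and, not_and, not_le, not_lt] at hcon
      have a1 := abs_lt.mp (hcon.1 hm.1)
      have a2 := abs_le.mp (hcon.2 hm.1)
      have a3 : |DS s m - s| ≤ L := by
        rw [abs_le]
        constructor <;> linarith [a1.1, a1.2, a2.1, a2.2]
      linarith [hm.2]
    have h3 := (Finset.card_le_card hsub).trans (Finset.card_union_le _ _)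
    have h4 : (((Icc 1 N).filter (fun m => L < |DS s m - s|)).card : ℝ) ≤
        ((Icc 1 N).filter (fun n => A * Real.sqrt (Real.log s) ≤ |yy (n + s) - yy n - s|)).card +
        ((Icc 1 N).filter (fun m => 1 < |DS s m - (yy (m + s) - yy m)|)).card := by
      exact_mod_cast h3
    linarith
  refine ⟨A, hA, max (max 4 (2 * s0)) (4 * (A * Real.sqrt (Real.log s0))), ?_, ?_⟩
  · exact le_trans (by norm_num) ((le_max_left (4 : ℝ) _).trans (le_max_left _ _))
  intro K hK s hs
  have hK4 : 4 ≤ K := ((le_max_left _ _).trans (le_max_left _ _)).trans hK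
  have hKs : 2 * (s0 : ℝ) ≤ K := ((le_max_right _ _).trans (le_max_left _ _)).trans hK
  have hKA : 4 * (A * Real.sqrt (Real.log s0)) ≤ K := (le_max_right _ _).trans hK
  rcases le_or_gt s0 s with hss | hss
  · have hAs : A * Real.sqrt (Real.log s) ≤ K / 2 := by
      rcases Nat.eq_zero_or_pos s with h0 | h0
      · rw [h0]
        simp
        linarith
      have hs1 : (0 : ℝ) < s := by exact_mod_cast h0
      have hlog : Real.log s ≤ (K / (2 * A)) ^ 2 := by
        have := Real.log_le_log hs1 hs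
        rw [Real.log_exp] at this
        refine this.trans (le_of_eq ?_)
        field_simp
        ring
      have h1 : Real.sqrt (Real.log s) ≤ K / (2 * A) := by
        rw [Real.sqrt_le_left (by positivity)]
        exact hlog
      calc A * Real.sqrt (Real.log s) ≤ A * (K / (2 * A)) := mul_le_mul_of_nonneg_left h1 hA.le
        _ = K / 2 := by field_simp
    filter_upwards [big s hss K (by linarith) hAs] with N hN
    have hN0 : (0 : ℝ) ≤ N := Nat.cast_nonneg _
    refine hN.trans ?_
    nlinarith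
  · have hbig : ∀ᶠ N : ℕ in atTop, (n1 : ℝ) ≤ θ / 3 * N :=
      (tendsto_natCast_atTop_atTop.const_mul_atTop
        (show (0 : ℝ) < θ / 3 by positivity)).eventually_ge_atTop _
    filter_upwards [big s0 le_rfl (K / 2) (by linarith) (by linarith), hbig] with N g1 g2
    have hsub : (Icc 1 N).filter (fun m => K < |DS s m - s|) ⊆
        range n1 ∪ (Icc 1 N).filter (fun m => K / 2 < |DS s0 m - s0|) := by
      intro m hm
      rw [Finset.mem_filter] at hm
      rw [Finset.mem_union, Finset.mem_filter, Finset.mem_range]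
      by_contra hcon
      rw [not_or, not_and, not_lt, not_lt] at hcon
      have a1 := abs_le.mp (hcon.2 hm.1)
      have h0 : ∀ j, 0 ≤ dq (m + j) := fun j => (hn1 (m + j) (by omega)).1
      have b1 : 0 ≤ DS s m := Finset.sum_nonneg fun j _ => h0 j
      have b2 : DS s m ≤ DS s0 m := by
        unfold DS
        exact Finset.sum_le_sum_of_subset_of_nonneg
          (Finset.range_subset_range.mpr hss.le) fun j _ _ => h0 j
      have b3 : (s : ℝ) ≤ s0 := by exact_mod_cast hss.le
      have b4 : (0 : ℝ) ≤ s := Nat.cast_nonneg _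
      have a3 : |DS s m - s| ≤ K := by
        rw [abs_le]
        constructor <;> linarith [a1.1, a1.2]
      linarith [hm.2]
    have h3 := (Finset.card_le_card hsub).trans (Finset.card_union_le _ _)
    rw [Finset.card_range] at h3
    have h4 : (((Icc 1 N).filter (fun m => K < |DS s m - s|)).card : ℝ) ≤
        n1 + ((Icc 1 N).filter (fun m => K / 2 < |DS s0 m - s0|)).card := by
      exact_mod_cast h3
    linarith

/-- choice of the offset of the blocks -/
lemma offset (Bad : ℕ → ℕ → Prop) (r N : ℕ) (hr : 1 ≤ r) (M : ℝ) [∀ s, DecidablePred (Bad s)]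
    (h : ∀ s < r, (((Icc 1 N).filter (Bad s)).card : ℝ) ≤ M) :
    ∃ o < r, ((((Icc 1 N ×ˢ range r).filter (fun c => c.1 % r = o ∧ Bad c.2 c.1)).card : ℕ) : ℝ) ≤
      M := by
  classical
  by_contra hcon
  push Not at hcon
  have h1 : ∑ o ∈ range r, (((Icc 1 N ×ˢ range r).filter
      (fun c => c.1 % r = o ∧ Bad c.2 c.1)).card : ℝ) =
      ((Icc 1 N ×ˢ range r).filter (fun c => Bad c.2 c.1)).card := by
    have h2 : ((Icc 1 N ×ˢ range r).filter (fun c => Bad c.2 c.1)).card =
        ∑ o ∈ range r, (((Icc 1 N ×ˢ range r).filter (fun c => Bad c.2 c.1)).filter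
          (fun c => c.1 % r = o)).card := by
      apply Finset.card_eq_sum_card_fiberwise
      intro c _
      exact Finset.mem_coe.mpr (Finset.mem_range.mpr (Nat.mod_lt _ (by omega)))
    rw [h2]
    push_cast
    refine Finset.sum_congr rfl fun o _ => ?_
    rw [Finset.filter_filter]
    congr 2
    ext c
    simp only [Finset.mem_filter]
    tauto
  have h3 : ((Icc 1 N ×ˢ range r).filter (fun c => Bad c.2 c.1)).card =
      ∑ s ∈ range r, ((Icc 1 N).filter (Bad s)).card := by
    have h4 : ((Icc 1 N ×ˢ range r).filter (fun c => Bad c.2 c.1)).card =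
        ∑ s ∈ range r, (((Icc 1 N ×ˢ range r).filter (fun c => Bad c.2 c.1)).filter
          (fun c => c.2 = s)).card := by
      apply Finset.card_eq_sum_card_fiberwise
      intro c hc
      rw [Finset.mem_coe, Finset.mem_filter, Finset.mem_product] at hc
      exact Finset.mem_coe.mpr hc.1.2
    rw [h4]
    refine Finset.sum_congr rfl fun s hs => ?_
    refine Finset.card_bij' (fun c _ => c.1) (fun m _ => (m, s)) ?_ ?_ ?_ ?_
    · intro c hc
      rw [Finset.mem_filter, Finset.mem_filter, Finset.mem_product] at hc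
      rw [Finset.mem_filter]
      obtain ⟨⟨⟨c1, _⟩, c3⟩, c4⟩ := hc
      rw [c4] at c3
      exact ⟨c1, c3⟩
    · intro m hm
      rw [Finset.mem_filter] at hm
      rw [Finset.mem_filter, Finset.mem_filter, Finset.mem_product]
      exact ⟨⟨⟨hm.1, hs⟩, hm.2⟩, rfl⟩
    · intro c hc
      rw [Finset.mem_filter] at hc
      exact Prod.ext rfl hc.2.symm
    · intro m _
      rfl
  have h5 : ∑ s ∈ range r, (((Icc 1 N).filter (Bad s)).card : ℝ) ≤ r * M := by
    refine (Finset.sum_le_sum fun s hs => h s (Finset.mem_range.mp hs)).trans ?_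
    rw [Finset.sum_const, Finset.card_range, nsmul_eq_mul]
  have h6 : (r : ℝ) * M < ∑ o ∈ range r, (((Icc 1 N ×ˢ range r).filter
      (fun c => c.1 % r = o ∧ Bad c.2 c.1)).card : ℝ) := by
    have : ∑ o ∈ range r, M < ∑ o ∈ range r, (((Icc 1 N ×ˢ range r).filter
      (fun c => c.1 % r = o ∧ Bad c.2 c.1)).card : ℝ) := by
      apply Finset.sum_lt_sum_of_nonempty ⟨0, Finset.mem_range.mpr (by omega)⟩
      intro o ho
      exact hcon o (Finset.mem_range.mp ho)
    rwa [Finset.sum_const, Finset.card_range, nsmul_eq_mul] at this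
  rw [h1, h3] at h6
  push_cast at h6
  linarith

/-- the number of the block ends -/
lemma ends (r o N : ℕ) :
    ((Icc 1 N).filter (fun n => n < o ∨ (n + 1 - o) % r = 0)).card ≤ o + ((N + 1) / r + 1) := by
  have hsub : (Icc 1 N).filter (fun n => n < o ∨ (n + 1 - o) % r = 0) ⊆
      range o ∪ (Icc 1 N).filter (fun n => o ≤ n ∧ (n + 1 - o) % r = 0) := by
    intro n hn
    rw [Finset.mem_filter] at hn
    rw [Finset.mem_union, Finset.mem_range, Finset.mem_filter]
    rcases lt_or_ge n o with h | h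
    · exact Or.inl h
    · exact Or.inr ⟨hn.1, h, hn.2.resolve_left (by omega)⟩
  refine (Finset.card_le_card hsub).trans ((Finset.card_union_le _ _).trans ?_)
  rw [Finset.card_range]
  apply Nat.add_le_add_left
  have : ((Icc 1 N).filter (fun n => o ≤ n ∧ (n + 1 - o) % r = 0)).card ≤
      (range ((N + 1) / r + 1)).card := by
    apply Finset.card_le_card_of_injOn (fun n => (n + 1 - o) / r)
    · intro n hn
      rw [Finset.mem_coe, Finset.mem_filter, Finset.mem_Icc] at hn
      rw [Finset.mem_coe, Finset.mem_range, Nat.lt_succ_iff]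
      exact Nat.div_le_div_right (by omega)
    · intro a ha b hb hab
      rw [Finset.mem_coe, Finset.mem_filter, Finset.mem_Icc] at ha hb
      simp only at hab
      have h1 := Nat.div_add_mod (a + 1 - o) r
      have h2 := Nat.div_add_mod (b + 1 - o) r
      rw [ha.2.2, add_zero, hab] at h1
      rw [hb.2.2, add_zero] at h2
      omega
  rwa [Finset.card_range] at this

/-- **sharpness** -/
theorem sharp (η : ℝ) (hη : 0 < η) : ∃ c : ℝ, 0 < c ∧ ∃ K0 : ℝ, 1 ≤ K0 ∧ ∀ K : ℝ, K0 ≤ K →
    ∀ᶠ N : ℕ in atTop, ∃ x : ℕ → ℝ,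
    (((Icc 1 N).filter (fun n => dq n ≠ 1 + (x (n + 1) - x n))).card : ℝ) ≤
      Real.exp (-c * K ^ 2) * N ∧
    (((Icc 1 N).filter (fun n => K < |x n|)).card : ℝ) ≤ η * N := by
  classical
  obtain ⟨A, hA, K0, hK0, h⟩ := conc (η / 2) (by positivity)
  refine ⟨1 / (8 * A ^ 2), by positivity, max K0 (4 * A), hK0.trans (le_max_left _ _), ?_⟩
  intro K hK
  have hK1 : K0 ≤ K := (le_max_left _ _).trans hK
  have hK2 : 4 * A ≤ K := (le_max_right _ _).trans hK
  obtain ⟨E, hE⟩ : ∃ E : ℝ, E = Real.exp (K ^ 2 / (8 * A ^ 2)) := ⟨_, rfl⟩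
  have hE2 : Real.exp (K ^ 2 / (4 * A ^ 2)) = E ^ 2 := by
    rw [hE, ← Real.exp_nat_mul]
    congr 1
    push_cast
    field_simp
    ring
  have hE4 : 3 ≤ E := by
    have h1 : 2 ≤ K ^ 2 / (8 * A ^ 2) := by
      rw [le_div_iff₀ (by positivity)]
      nlinarith
    have h2 := Real.add_one_le_exp (K ^ 2 / (8 * A ^ 2))
    rw [← hE] at h2
    linarith
  obtain ⟨r, hrd⟩ : ∃ r : ℕ, r = ⌊E ^ 2⌋₊ := ⟨_, rfl⟩
  have hr_le : (r : ℝ) ≤ E ^ 2 := by rw [hrd]; exact Nat.floor_le (by positivity)
  have hr_ge : E ^ 2 < r + 1 := by rw [hrd]; exact Nat.lt_floor_add_one _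
  have hr3 : 2 * E ≤ r := by nlinarith
  have hr1 : 1 ≤ r := by
    have : (1 : ℝ) ≤ r := by linarith
    exact_mod_cast this
  have hr0 : (0 : ℝ) < r := by linarith
  have hall : ∀ᶠ N : ℕ in atTop, ∀ s ∈ range r,
      (((Icc 1 N).filter (fun m => K < |DS s m - s|)).card : ℝ) ≤ η / 2 * N := by
    rw [Filter.eventually_all_finset]
    intro s hs
    rw [Finset.mem_range] at hs
    apply h K hK1 s
    rw [hE2]
    have : (s : ℝ) ≤ r := by exact_mod_cast hs.le
    linarith
  have hb1 : ∀ᶠ N : ℕ in atTop, (r : ℝ) ≤ η / 2 * N :=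
    (tendsto_natCast_atTop_atTop.const_mul_atTop
      (show (0 : ℝ) < η / 2 by positivity)).eventually_ge_atTop _
  have hb2 : ∀ᶠ N : ℕ in atTop, (r : ℝ) + 2 ≤ 1 / (2 * E) * N :=
    (tendsto_natCast_atTop_atTop.const_mul_atTop
      (show (0 : ℝ) < 1 / (2 * E) by positivity)).eventually_ge_atTop _
  filter_upwards [hall, hb1, hb2] with N g1 g2 g3
  obtain ⟨o, ho, hoc⟩ := offset (fun s m => K < |DS s m - s|) r N hr1 (η / 2 * N)
    (fun s hs => g1 s (Finset.mem_range.mpr hs))
  refine ⟨fun n => if o ≤ n then DS ((n - o) % r) (n - (n - o) % r) - (((n - o) % r : ℕ) : ℝ)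
    else 0, ?_, ?_⟩
  · have hsub : (Icc 1 N).filter (fun n => dq n ≠ 1 + ((if o ≤ n + 1 then
        DS ((n + 1 - o) % r) (n + 1 - (n + 1 - o) % r) - (((n + 1 - o) % r : ℕ) : ℝ) else 0) -
        (if o ≤ n then DS ((n - o) % r) (n - (n - o) % r) - (((n - o) % r : ℕ) : ℝ) else 0))) ⊆
        (Icc 1 N).filter (fun n => n < o ∨ (n + 1 - o) % r = 0) := by
      intro n hn
      rw [Finset.mem_filter] at hn ⊢
      refine ⟨hn.1, ?_⟩
      by_contra hcon
      rw [not_or, not_lt] at hcon
      obtain ⟨hon, hmod⟩ := hcon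
      apply hn.2
      rw [if_pos (show o ≤ n + 1 by omega), if_pos hon]
      have e1 : n + 1 - o = n - o + 1 := by omega
      rw [e1] at hmod ⊢
      have e2 : (n - o + 1) % r = (n - o) % r + 1 := by
        have h1 := Nat.mod_lt (n - o) (show 0 < r by omega)
        have h2 := Nat.add_mod (n - o) 1 r
        rcases Nat.eq_or_lt_of_le (show (n - o) % r + 1 ≤ r by omega) with h3 | h3
        · exfalso
          apply hmod
          have h4 : (n - o + 1) % r = ((n - o) % r + 1) % r := by
            rw [Nat.mod_add_mod]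
          rw [h4, h3, Nat.mod_self]
        · have h4 : (n - o + 1) % r = ((n - o) % r + 1) % r := by
            rw [Nat.mod_add_mod]
          rw [h4, Nat.mod_eq_of_lt h3]
      have h5 : (n - o) % r ≤ n - o := Nat.mod_le _ _
      rw [e2, show n + 1 - ((n - o) % r + 1) = n - (n - o) % r by omega, DS_succ,
        show n - (n - o) % r + (n - o) % r = n by omega]
      push_cast
      ring
    have h1 := (Finset.card_le_card hsub).trans (ends r o N)
    have h2 : (((Icc 1 N).filter (fun n => dq n ≠ 1 + ((if o ≤ n + 1 then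
        DS ((n + 1 - o) % r) (n + 1 - (n + 1 - o) % r) - (((n + 1 - o) % r : ℕ) : ℝ) else 0) -
        (if o ≤ n then DS ((n - o) % r) (n - (n - o) % r) - (((n - o) % r : ℕ) : ℝ) else
          0)))).card : ℝ) ≤ o + (((N + 1) / r : ℕ) + 1) := by exact_mod_cast h1
    refine h2.trans ?_
    have h3 : (((N + 1) / r : ℕ) : ℝ) ≤ (N + 1) / r := by
      have := Nat.cast_div_le (α := ℝ) (m := N + 1) (n := r)
      push_cast at this
      exact this
    have h4 : ((N : ℝ) + 1) / r ≤ (N + 1) / (2 * E) :=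
      div_le_div_of_nonneg_left (by positivity) (by positivity) hr3
    have h5 : (o : ℝ) ≤ r := by exact_mod_cast ho.le
    have h6 : Real.exp (-(1 / (8 * A ^ 2)) * K ^ 2) = 1 / E := by
      have e : -(1 / (8 * A ^ 2)) * K ^ 2 = -(K ^ 2 / (8 * A ^ 2)) := by ring
      rw [hE, e, Real.exp_neg, one_div]
    rw [h6]
    have h7 : ((N : ℝ) + 1) / (2 * E) ≤ 1 / (2 * E) * N + 1 := by
      have : 1 / (2 * E) ≤ 1 := by
        rw [div_le_one (by positivity)]
        linarith
      have e : ((N : ℝ) + 1) / (2 * E) = 1 / (2 * E) * N + 1 / (2 * E) := by ring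
      rw [e]
      linarith
    have h8 : 1 / E * (N : ℝ) = 1 / (2 * E) * N + 1 / (2 * E) * N := by
      field_simp
      norm_num
    rw [h8]
    linarith
  · have hsub : (Icc 1 N).filter (fun n => K < |if o ≤ n then
        DS ((n - o) % r) (n - (n - o) % r) - (((n - o) % r : ℕ) : ℝ) else 0|) ⊆
        range r ∪ ((Icc 1 N ×ˢ range r).filter
          (fun c => c.1 % r = o ∧ K < |DS c.2 c.1 - c.2|)).image (fun c => c.1 + c.2) := by
      intro n hn
      rw [Finset.mem_filter, Finset.mem_Icc] at hn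
      rw [Finset.mem_union, Finset.mem_range, Finset.mem_image]
      rcases lt_or_ge n r with h1 | h1
      · exact Or.inl h1
      right
      have hon : o ≤ n := by omega
      rw [if_pos hon] at hn
      have h5 : (n - o) % r ≤ n - o := Nat.mod_le _ _
      have h6 : (n - o) % r < r := Nat.mod_lt _ (by omega)
      refine ⟨(n - (n - o) % r, (n - o) % r), ?_, ?_⟩
      · rw [Finset.mem_filter, Finset.mem_product, Finset.mem_Icc, Finset.mem_range]
        refine ⟨⟨⟨?_, ?_⟩, h6⟩, ?_, hn.2⟩
        · simp only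
          omega
        · simp only
          omega
        · simp only
          have h7 := Nat.div_add_mod (n - o) r
          have h8 : n - (n - o) % r = o + r * ((n - o) / r) := by omega
          rw [h8, Nat.add_mul_mod_self_left, Nat.mod_eq_of_lt ho]
      · simp only
        omega
    have h1 := (Finset.card_le_card hsub).trans (Finset.card_union_le _ _)
    have h2 := Finset.card_image_le (s := (Icc 1 N ×ˢ range r).filter
          (fun c => c.1 % r = o ∧ K < |DS c.2 c.1 - c.2|)) (f := fun c : ℕ × ℕ => c.1 + c.2)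
    rw [Finset.card_range] at h1
    have h3 : (((Icc 1 N).filter (fun n => K < |if o ≤ n then
        DS ((n - o) % r) (n - (n - o) % r) - (((n - o) % r : ℕ) : ℝ) else 0|)).card : ℝ) ≤
        r + ((Icc 1 N ×ˢ range r).filter
          (fun c => c.1 % r = o ∧ K < |DS c.2 c.1 - c.2|)).card := by
      exact_mod_cast h1.trans (Nat.add_le_add_left h2 _)
    linarith

end Pool.Agent.N670.GS
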